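import Pool.Agent.Helper19.RD.Stmts9
import Pool.Agent.Helper18.RD.Stmts2
import Pool.Agent.Helper83.RU.UnsSg

/-! Project RD (MP_b7477f_nt): moduli with many prime factors of one size (helper68). -/

set_option autoImplicit false

namespace Pool.Agent.Helper68.RD

open Finset Pool.Agent.Helper18.RD Pool.Agent.Helper19.RD

/-- the primes of `q` in `(x / 2, x]` -/
def PX (q x : ℕ) : Finset ℕ := (Icc 1 x).filter (fun p => p.Prime ∧ p ∣ q ∧ x < 2 * p)

/-- moduli with many prime factors of one size -/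
def ST_SM : Prop := ∃ C : ℝ, 0 < C ∧ ∀ N q a x : ℕ, 1 ≤ N → 1 ≤ q → Nat.Coprime q a → N ≤ x ^ 2 →
  (x : ℝ) * (1 + Real.log x) ≤ (N : ℝ) ^ (1 / 4800 : ℝ) * (PX q x).card →
  C * (1 + Real.log N) * Real.log q ≤ ((PX q x).card : ℝ) ^ 2 →
  (((range N).filter (fun n => IsSquare (q * n + a))).card : ℝ) ≤ C * Real.sqrt N

/-- the moment bound from closeness -/
theorem mom_low (J U : Finset ℕ) (e : ℕ → ℕ → ℤ) (k : ℕ) (hk : 1 ≤ k)
    (he : ∀ n l, e n l = 1 ∨ e n l = -1)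
    (h : ∀ i ∈ J, ∀ j ∈ J, 8 * (k : ℝ) * ((U.filter (fun p => e i p ≠ e j p)).card : ℝ) ≤ U.card) :
    3 / 4 * (U.card : ℝ) * (J.card : ℝ) ^ (2 * k) ≤ ∑ p ∈ U, (∑ n ∈ J, (e n p : ℝ)) ^ (2 * k) := by
  classical
  have hk0 : (0 : ℝ) < k := by exact_mod_cast hk
  rcases U.eq_empty_or_nonempty with hU | hU
  · simp [hU]
  have hUc : (0 : ℝ) < U.card := by exact_mod_cast hU.card_pos
  -- second moment
  have h2 : (J.card : ℝ) ^ 2 * U.card * (1 - 1 / (4 * k)) ≤ ∑ p ∈ U, (∑ n ∈ J, (e n p : ℝ)) ^ 2 := by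
    have e1 : ∑ p ∈ U, (∑ n ∈ J, (e n p : ℝ)) ^ 2 =
        ∑ i ∈ J, ∑ j ∈ J, ∑ p ∈ U, (e i p : ℝ) * e j p := by
      simp_rw [pow_two, sum_mul_sum]
      rw [sum_comm]
      refine sum_congr rfl fun i _ => ?_
      rw [sum_comm]
    have e2 : ∀ i ∈ J, ∀ j ∈ J, (U.card : ℝ) * (1 - 1 / (4 * k)) ≤
        ∑ p ∈ U, (e i p : ℝ) * e j p := by
      intro i hi j hj
      have e3 : ∑ p ∈ U, (e i p : ℝ) * e j p =
          (U.card : ℝ) - 2 * ((U.filter (fun p => e i p ≠ e j p)).card : ℝ) := by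
        have : ∀ p ∈ U, (e i p : ℝ) * e j p = 1 - 2 * (if e i p ≠ e j p then (1:ℝ) else 0) := by
          intro p _
          rcases he i p with h1 | h1 <;> rcases he j p with h2 | h2 <;> simp [h1, h2] <;> norm_num
        rw [sum_congr rfl this, sum_sub_distrib, ← mul_sum, ← sum_filter]
        simp
      rw [e3]
      have h4 := h i hi j hj
      have : 2 * ((U.filter (fun p => e i p ≠ e j p)).card : ℝ) ≤ U.card * (1 / (4 * k)) := by
        rw [mul_one_div, le_div_iff₀ (by positivity)]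
        linarith
      linarith
    rw [e1]
    calc (J.card : ℝ) ^ 2 * U.card * (1 - 1 / (4 * k)) =
        ∑ i ∈ J, ∑ j ∈ J, (U.card : ℝ) * (1 - 1 / (4 * k)) := by
          simp only [sum_const, nsmul_eq_mul]; ring
      _ ≤ _ := sum_le_sum fun i hi => sum_le_sum fun j hj => e2 i hi j hj
  -- power mean
  have h3 : (∑ p ∈ U, (1 / (U.card : ℝ)) * (∑ n ∈ J, (e n p : ℝ)) ^ 2) ^ k ≤
      ∑ p ∈ U, (1 / (U.card : ℝ)) * ((∑ n ∈ J, (e n p : ℝ)) ^ 2) ^ k := by
    apply Real.pow_arith_mean_le_arith_mean_pow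
    · intro i _; positivity
    · rw [sum_const, nsmul_eq_mul]; field_simp
    · intro i _; positivity
  rw [← mul_sum, ← mul_sum] at h3
  have h4 : (J.card : ℝ) ^ 2 * (1 - 1 / (4 * k)) ≤
      1 / (U.card : ℝ) * ∑ p ∈ U, (∑ n ∈ J, (e n p : ℝ)) ^ 2 := by
    rw [div_mul_eq_mul_div, one_mul, le_div_iff₀ hUc]
    linarith
  have hq0 : (0 : ℝ) ≤ 1 - 1 / (4 * k) := by
    have : 1 / (4 * (k : ℝ)) ≤ 1 := by
      rw [div_le_one (by positivity)]
      have : (1 : ℝ) ≤ k := by exact_mod_cast hk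
      linarith
    linarith
  have h5 : ((J.card : ℝ) ^ 2 * (1 - 1 / (4 * k))) ^ k ≤
      (1 / (U.card : ℝ) * ∑ p ∈ U, (∑ n ∈ J, (e n p : ℝ)) ^ 2) ^ k :=
    pow_le_pow_left₀ (by positivity) h4 k
  have h6 : (3 / 4 : ℝ) ≤ (1 - 1 / (4 * k)) ^ k := by
    have := one_add_mul_le_pow (a := -(1 / (4 * (k : ℝ)))) (by linarith) k
    have e : (1 : ℝ) + k * -(1 / (4 * (k : ℝ))) = 3 / 4 := by field_simp; norm_num
    rw [e] at this
    rwa [← sub_eq_add_neg] at this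
  have h7 : 3 / 4 * (J.card : ℝ) ^ (2 * k) ≤
      1 / (U.card : ℝ) * ∑ p ∈ U, ((∑ n ∈ J, (e n p : ℝ)) ^ 2) ^ k := by
    calc 3 / 4 * (J.card : ℝ) ^ (2 * k) ≤ (1 - 1 / (4 * k)) ^ k * (J.card : ℝ) ^ (2 * k) :=
          mul_le_mul_of_nonneg_right h6 (by positivity)
      _ = ((J.card : ℝ) ^ 2 * (1 - 1 / (4 * k))) ^ k := by rw [mul_pow, ← pow_mul]; ring
      _ ≤ _ := h5.trans h3
  rw [one_div, inv_mul_eq_div, le_div_iff₀ hUc] at h7
  calc 3 / 4 * (U.card : ℝ) * (J.card : ℝ) ^ (2 * k) =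
      3 / 4 * (J.card : ℝ) ^ (2 * k) * U.card := by ring
    _ ≤ _ := h7
    _ = _ := by simp_rw [← pow_mul]

theorem num0 (A : ℝ) : ∃ N0 : ℕ, ∀ N : ℕ, N0 ≤ N → 256 * A ≤ (N : ℝ) ^ (1 / 40 : ℝ) ∧ 64 ≤ N := by
  have h : Filter.Tendsto (fun N : ℕ => (N : ℝ) ^ (1 / 40 : ℝ)) Filter.atTop Filter.atTop :=
    (tendsto_rpow_atTop (by norm_num)).comp tendsto_natCast_atTop_atTop
  obtain ⟨N1, h1⟩ := Filter.eventually_atTop.1 (h.eventually_ge_atTop (256 * A))
  exact ⟨max N1 64, fun N hN => ⟨h1 N (le_trans (le_max_left _ _) hN),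
    le_trans (le_max_right _ _) hN⟩⟩

/-- the numerical part of the dichotomy -/
theorem dich (B CE E T L V η ν n R M G lx z20 : ℝ) (hB : 0 ≤ B) (hCE : 0 ≤ CE) (hE : 0 < E)
    (hT : 1 ≤ T) (hL : 1 ≤ L) (hlx0 : 0 ≤ lx) (hlx : L = 1 + lx) (hR : 0 ≤ R) (hM0 : 0 ≤ M)
    (hν : 0 < ν) (hG : 0 ≤ G)
    (hV : L / T ≤ V) (hη : 1 / (E * T ^ 80) ≤ (η / 2) ^ 80) (hM : M ≤ CE * R ^ 8 * ν)
    (hz : 2048 * n ^ 8 / z20 ≤ 2048 * 16 ^ 10 * ν) (hz0 : 0 ≤ 2048 * n ^ 8 / z20)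
    (hd : G ^ 4 * V ^ 40 * (η / 2) ^ 80 ≤ B * ((1 + 20 * lx) ^ 2 * M +
      (1 + 20 * lx) * (2048 * n ^ 8 / z20) * R ^ 8))
    (hnum : 256 * (B * 400 * (CE + 2048 * 16 ^ 10) * E) * (ν * T ^ 120) ≤ 1) :
    4 * G ≤ R ^ 2 := by
  have hT0 : 0 < T := by linarith
  have hL0 : 0 < L := by linarith
  obtain ⟨F, hF⟩ : ∃ F : ℝ, F = 2048 * 16 ^ 10 := ⟨_, rfl⟩
  rw [← hF] at hz hnum
  have hF0 : 0 < F := by rw [hF]; norm_num
  have h1 : L ^ 2 / T ^ 40 ≤ V ^ 40 := by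
    calc L ^ 2 / T ^ 40 ≤ L ^ 40 / T ^ 40 := by
          apply div_le_div_of_nonneg_right _ (by positivity)
          exact pow_le_pow_right₀ hL (by norm_num)
      _ = (L / T) ^ 40 := (div_pow _ _ _).symm
      _ ≤ V ^ 40 := pow_le_pow_left₀ (by positivity) hV 40
  have h2 : G ^ 4 * (L ^ 2 / T ^ 40) * (1 / (E * T ^ 80)) ≤ G ^ 4 * V ^ 40 * (η / 2) ^ 80 := by
    have : (0:ℝ) ≤ 1 / (E * T ^ 80) := by positivity
    have hV40 : 0 ≤ V ^ 40 := le_trans (by positivity) h1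
    gcongr
  have hx1 : 1 + 20 * lx ≤ 20 * L := by rw [hlx]; linarith
  have hx0 : 0 ≤ 1 + 20 * lx := by positivity
  have hx2 : (1 + 20 * lx) ^ 2 ≤ 400 * L ^ 2 := by nlinarith
  have hx3 : 1 + 20 * lx ≤ 400 * L ^ 2 := by nlinarith
  have h3 : (1 + 20 * lx) ^ 2 * M + (1 + 20 * lx) * (2048 * n ^ 8 / z20) * R ^ 8 ≤
      400 * L ^ 2 * ((CE + F) * R ^ 8 * ν) := by
    have a1 : (1 + 20 * lx) ^ 2 * M ≤ 400 * L ^ 2 * (CE * R ^ 8 * ν) :=
      mul_le_mul hx2 hM hM0 (by positivity)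
    have a2 : (1 + 20 * lx) * (2048 * n ^ 8 / z20) ≤ 400 * L ^ 2 * (F * ν) :=
      mul_le_mul hx3 hz hz0 (by positivity)
    have a3 : (1 + 20 * lx) * (2048 * n ^ 8 / z20) * R ^ 8 ≤ 400 * L ^ 2 * (F * ν) * R ^ 8 :=
      mul_le_mul_of_nonneg_right a2 (by positivity)
    calc _ ≤ 400 * L ^ 2 * (CE * R ^ 8 * ν) + 400 * L ^ 2 * (F * ν) * R ^ 8 := add_le_add a1 a3
      _ = _ := by ring
  have h4 : G ^ 4 * (L ^ 2 / T ^ 40) * (1 / (E * T ^ 80)) ≤
      B * (400 * L ^ 2 * ((CE + F) * R ^ 8 * ν)) :=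
    h2.trans (hd.trans (mul_le_mul_of_nonneg_left h3 hB))
  have h5 : G ^ 4 ≤ (B * 400 * (CE + F) * E) * (ν * T ^ 120) * R ^ 8 := by
    have e1 : G ^ 4 * (L ^ 2 / T ^ 40) * (1 / (E * T ^ 80)) = G ^ 4 * (L ^ 2 / (E * T ^ 120)) := by
      field_simp
    rw [e1] at h4
    have e2 : B * (400 * L ^ 2 * ((CE + F) * R ^ 8 * ν)) =
        ((B * 400 * (CE + F) * E) * (ν * T ^ 120) * R ^ 8) * (L ^ 2 / (E * T ^ 120)) := by
      field_simp
    rw [e2] at h4
    exact le_of_mul_le_mul_right h4 (by positivity)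
  have h6 : (4 * G) ^ 4 ≤ (R ^ 2) ^ 4 := by
    have : 256 * G ^ 4 ≤ R ^ 8 := by
      have h7 : 256 * ((B * 400 * (CE + F) * E) * (ν * T ^ 120) * R ^ 8) ≤ 1 * R ^ 8 := by
        have := mul_le_mul_of_nonneg_right hnum (show 0 ≤ R ^ 8 by positivity)
        linarith
      linarith
    calc (4 * G) ^ 4 = 256 * G ^ 4 := by ring
      _ ≤ R ^ 8 := this
      _ = _ := by ring
  exact le_of_pow_le_pow_left₀ (by norm_num) (by positivity) h6

/-- the last step -/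
theorem fin0 (u P A Lq s x : ℝ) (k : ℕ) (hu : 0 < u) (hP : 0 < P) (hs : 64 * ((k : ℝ) + 1) * s ≤ u / 4)
    (hA : 0 ≤ A) (hLq : Lq ≤ u ^ 2) (hux : u ≤ x)
    (h : 3 / 4 * u * P ^ 2 ≤ A * P * (6 * Lq) + P ^ 2 * (64 * ((k : ℝ) + 1) * s)) :
    P ≤ 12 * A * x := by
  have h1 : P ^ 2 * (64 * ((k : ℝ) + 1) * s) ≤ P ^ 2 * (u / 4) :=
    mul_le_mul_of_nonneg_left hs (by positivity)
  have h2 : 1 / 2 * u * P ^ 2 ≤ A * P * (6 * Lq) := by linarith
  have h3 : A * P * (6 * Lq) ≤ A * P * (6 * u ^ 2) := by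
    apply mul_le_mul_of_nonneg_left _ (by positivity)
    linarith
  have h4 : (u * P) * P ≤ (u * P) * (12 * A * u) := by nlinarith
  have h5 : P ≤ 12 * A * u := le_of_mul_le_mul_left h4 (by positivity)
  calc P ≤ 12 * A * u := h5
    _ ≤ 12 * A * x := mul_le_mul_of_nonneg_left hux (by positivity)

theorem st_SM (hARR : ST_ARR) (hEND : ST_END2) (hDIC : ST_DIC) (hCLU : ST_CLU) : ST_SM := by
  classical
  obtain ⟨CE, hCE, hEND⟩ := hEND
  obtain ⟨B, hB⟩ : ∃ B : ℝ, B = 4 ^ (4 * 20) * ((20 : ℕ) : ℝ) ^ (2 * 20) := ⟨_, rfl⟩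
  obtain ⟨E, hE⟩ : ∃ E : ℝ, E = 128 ^ 80 := ⟨_, rfl⟩
  have hB0 : 0 ≤ B := by rw [hB]; positivity
  have hE0 : 0 < E := by rw [hE]; positivity
  obtain ⟨A1, hA1⟩ : ∃ A1 : ℝ, A1 = B * 400 * (CE + 2048 * 16 ^ 10) * E := ⟨_, rfl⟩
  obtain ⟨N0, hN0⟩ := num0 A1
  refine ⟨40000000 + N0, by positivity, ?_⟩
  intro N q a x hN hq hco hNx hx hlq
  have hN0r : (0 : ℝ) ≤ N0 := Nat.cast_nonneg _
  have hNr : (1 : ℝ) ≤ N := by exact_mod_cast hN
  have hsq1 : 1 ≤ Real.sqrt N := Real.one_le_sqrt.2 hNr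
  rcases lt_or_ge N N0 with hlt | hge
  · have h1 : ((range N).filter (fun n => IsSquare (q * n + a))).card ≤ N := by
      calc _ ≤ (range N).card := card_filter_le _ _
        _ = N := card_range N
    have h2 : (((range N).filter (fun n => IsSquare (q * n + a))).card : ℝ) ≤ N0 := by
      exact_mod_cast h1.trans hlt.le
    calc _ ≤ (N0 : ℝ) := h2
      _ ≤ (40000000 + N0) * 1 := by linarith
      _ ≤ _ := mul_le_mul_of_nonneg_left hsq1 (by positivity)
  obtain ⟨hbig, hN64⟩ := hN0 N hge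
  have hR : ((range N).filter (fun n => IsSquare (q * n + a))) = SS N q a := rfl
  rw [hR]
  rcases (SS N q a).eq_empty_or_nonempty with hne | hne
  · rw [hne, card_empty, Nat.cast_zero]
    positivity
  obtain ⟨S, e, c, d, k, w, m, hcard, hD⟩ := hARR N q a hN hq hco hne
  have hcardr : ((SS N q a).card : ℝ) ≤ 2 * S.card := by exact_mod_cast hcard
  rcases Nat.lt_or_ge (S.card ^ 2) N with hS | hS
  · have h1 : (S.card : ℝ) ≤ Real.sqrt N := by
      apply Real.le_sqrt_of_sq_le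
      exact_mod_cast hS.le
    have h2 : 0 ≤ Real.sqrt N := Real.sqrt_nonneg _
    nlinarith
  -- sizes
  have hx8 : 8 ≤ x := by
    by_contra hcon
    have h1 : x ≤ 7 := by omega
    have h2 : x ^ 2 ≤ 7 ^ 2 := Nat.pow_le_pow_left h1 2
    omega
  have hx0 : (0 : ℝ) < x := by
    have : 0 < x := by omega
    exact_mod_cast this
  have hx1 : (1 : ℝ) ≤ x := by
    have : 1 ≤ x := by omega
    exact_mod_cast this
  have hlx0 : 0 ≤ Real.log x := Real.log_nonneg hx1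
  obtain ⟨U, hU⟩ : ∃ U : Finset ℕ, U = PX q x := ⟨_, rfl⟩
  rw [← hU] at hx hlq
  have hUm : ∀ p ∈ U, p.Prime ∧ p ∣ q ∧ x < 2 * p ∧ p ≤ x := by
    intro p hp
    rw [hU] at hp
    obtain ⟨h1, h2, h3, h4⟩ := mem_filter.1 hp
    exact ⟨h2, h3, h4, (mem_Icc.1 h1).2⟩
  have hUOP : U ⊆ OP q := by
    intro p hp
    obtain ⟨h1, h2, h3, h4⟩ := hUm p hp
    refine mem_erase.2 ⟨by omega, ?_⟩
    exact Nat.mem_primeFactors.2 ⟨h1, h2, by omega⟩
  have hux : (U.card : ℝ) ≤ x := by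
    have : U.card ≤ x := by
      rw [hU]
      calc (PX q x).card ≤ (Icc 1 x).card := card_filter_le _ _
        _ = x := by simp
    exact_mod_cast this
  obtain ⟨T, hT⟩ : ∃ T : ℝ, T = (N : ℝ) ^ (1 / 4800 : ℝ) := ⟨_, rfl⟩
  rw [← hT] at hx
  have hT1 : 1 ≤ T := by rw [hT]; exact Real.one_le_rpow hNr (by norm_num)
  obtain ⟨L, hL⟩ : ∃ L : ℝ, L = 1 + Real.log x := ⟨_, rfl⟩
  rw [← hL] at hx
  have hL1 : 1 ≤ L := by rw [hL]; linarith
  have hLT : L ≤ T := by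
    have h1 : (x : ℝ) * L ≤ x * T := by
      calc (x : ℝ) * L ≤ T * U.card := hx
        _ ≤ T * x := by gcongr
        _ = x * T := mul_comm _ _
    exact le_of_mul_le_mul_left h1 hx0
  have hu0 : (0 : ℝ) < U.card := by
    by_contra hcon
    have h0 : (U.card : ℝ) = 0 := le_antisymm (not_lt.1 hcon) (Nat.cast_nonneg _)
    rw [h0, mul_zero] at hx
    have : 0 < (x : ℝ) * L := by positivity
    linarith
  -- the total weight
  have hVlow : L / T ≤ VV U := by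
    have h1 : (U.card : ℝ) * (1 / x) ≤ VV U := by
      unfold VV
      rw [← nsmul_eq_mul, ← sum_const]
      apply sum_le_sum
      intro p hp
      obtain ⟨h1, h2, h3, h4⟩ := hUm p hp
      have hp0 : (0 : ℝ) < p := by exact_mod_cast h1.pos
      apply one_div_le_one_div_of_le hp0
      exact_mod_cast h4
    refine le_trans ?_ h1
    rw [mul_one_div, div_le_div_iff₀ (by linarith) hx0]
    linarith
  have hVup : VV U ≤ (U.card : ℝ) * (2 / x) := by
    unfold VV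
    rw [← nsmul_eq_mul, ← sum_const]
    apply sum_le_sum
    intro p hp
    obtain ⟨h1, h2, h3, h4⟩ := hUm p hp
    have hp0 : (0 : ℝ) < p := by exact_mod_cast h1.pos
    rw [div_le_div_iff₀ hp0 hx0]
    have : (x : ℝ) < 2 * p := by exact_mod_cast h3
    linarith
  -- the exponent
  obtain ⟨κ, hκ⟩ : ∃ κ : ℕ, κ = ⌈L⌉₊ := ⟨_, rfl⟩
  have hκL : L ≤ κ := by rw [hκ]; exact Nat.le_ceil _
  have hκ2 : (κ : ℝ) < L + 1 := by rw [hκ]; exact Nat.ceil_lt_add_one (by linarith)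
  have hκ1 : 1 ≤ κ := by
    have : (1 : ℝ) ≤ κ := hL1.trans hκL
    exact_mod_cast this
  have hκ0 : (0 : ℝ) < κ := by linarith
  obtain ⟨η, hη⟩ : ∃ η : ℝ, η = 1 / (32 * κ) := ⟨_, rfl⟩
  have hη0 : 0 < η := by rw [hη]; positivity
  have hη1 : η ≤ 1 / 2 := by
    rw [hη]
    apply one_div_le_one_div_of_le (by norm_num)
    linarith
  obtain ⟨z, hz⟩ : ∃ z : ℕ, z = x / 2 := ⟨_, rfl⟩
  have hz1 : 1 ≤ z := by omega
  have hzN : N ≤ 16 * z ^ 2 := by
    have h1 : x ≤ 4 * z := by omega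
    calc N ≤ x ^ 2 := hNx
      _ ≤ (4 * z) ^ 2 := Nat.pow_le_pow_left h1 2
      _ = 16 * z ^ 2 := by ring
  have hdic := hDIC N q 20 z x S U e c d k w η hN (by norm_num) hz1 (by omega) hD.dat hUOP
    (fun p hp => ⟨by have := (hUm p hp).2.2.1; omega, (hUm p hp).2.2.2⟩) hη0 hη1
  have hM := hEND N S c d k hN hD.dat.sub hD.dat.kap hS hD.dat.cd
  have hGG : 4 * (GG S U e η).card ≤ S.card ^ 2 := by
    have hν0 : 0 < (N : ℝ) ^ (-(1 / 20) : ℝ) := Real.rpow_pos_of_pos (by linarith) _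
    have key : 4 * ((GG S U e η).card : ℝ) ≤ (S.card : ℝ) ^ 2 := by
      refine dich B CE E T L (VV U) η ((N : ℝ) ^ (-(1 / 20) : ℝ)) N S.card ((MM S c d).card)
        ((GG S U e η).card) (Real.log x) ((z : ℝ) ^ 20) hB0 hCE.le hE0 hT1 hL1 hlx0 hL
        (Nat.cast_nonneg _) (Nat.cast_nonneg _) hν0 (Nat.cast_nonneg _) hVlow ?_ hM ?_ ?_ ?_ ?_
      · have h1 : 1 / (128 * T) ≤ η / 2 := by
          rw [hη, div_div, div_le_div_iff₀ (by positivity) (by positivity)]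
          nlinarith
        calc 1 / (E * T ^ 80) = (1 / (128 * T)) ^ 80 := by
              rw [hE, div_pow, one_pow, mul_pow]
          _ ≤ (η / 2) ^ 80 := pow_le_pow_left₀ (by positivity) h1 80
      · have hz20 : (0 : ℝ) < (z : ℝ) ^ 20 := by
          have : (0 : ℝ) < z := by exact_mod_cast hz1
          positivity
        have h1 : (N : ℝ) ^ 10 ≤ 16 ^ 10 * (z : ℝ) ^ 20 := by
          have h2 : N ^ 10 ≤ (16 * z ^ 2) ^ 10 := Nat.pow_le_pow_left hzN 10
          have h3 : (N : ℝ) ^ 10 ≤ (16 * (z : ℝ) ^ 2) ^ 10 := by exact_mod_cast h2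
          calc (N : ℝ) ^ 10 ≤ (16 * (z : ℝ) ^ 2) ^ 10 := h3
            _ = _ := by rw [mul_pow, ← pow_mul]
        have h4 : (N : ℝ) ^ (-(2 : ℝ)) ≤ (N : ℝ) ^ (-(1 / 20) : ℝ) :=
          Real.rpow_le_rpow_of_exponent_le hNr (by norm_num)
        have h5 : (N : ℝ) ^ 8 / (z : ℝ) ^ 20 ≤ 16 ^ 10 * (N : ℝ) ^ (-(2 : ℝ)) := by
          rw [div_le_iff₀ hz20]
          have h6 : (N : ℝ) ^ 8 = (N : ℝ) ^ 10 * (N : ℝ) ^ (-(2 : ℝ)) := by
            rw [← Real.rpow_natCast (N : ℝ) 10, ← Real.rpow_add (by linarith),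
              ← Real.rpow_natCast (N : ℝ) 8]
            norm_num
          rw [h6]
          have h7 : 0 ≤ (N : ℝ) ^ (-(2 : ℝ)) := Real.rpow_nonneg (by linarith) _
          nlinarith [mul_le_mul_of_nonneg_right h1 h7]
        have h8 : (N : ℝ) ^ 8 / (z : ℝ) ^ 20 ≤ 16 ^ 10 * (N : ℝ) ^ (-(1 / 20) : ℝ) :=
          h5.trans (mul_le_mul_of_nonneg_left h4 (by norm_num))
        rw [mul_div_assoc, mul_assoc]
        exact mul_le_mul_of_nonneg_left h8 (by norm_num)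
      · positivity
      · rw [hB]
        have e1 : ((20 : ℕ) : ℝ) = 20 := by norm_num
        rw [e1] at hdic ⊢
        exact hdic
      · have e1 : (N : ℝ) ^ (-(1 / 20) : ℝ) * T ^ 120 = ((N : ℝ) ^ (1 / 40 : ℝ))⁻¹ := by
          rw [hT, ← Real.rpow_natCast, ← Real.rpow_mul (by linarith), ← Real.rpow_add (by linarith),
            ← Real.rpow_neg (by linarith)]
          norm_num
        rw [← hA1, e1, ← div_eq_mul_inv, div_le_one (Real.rpow_pos_of_pos (by linarith) _)]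
        exact hbig
    exact_mod_cast key
  have hSne : S.Nonempty := by
    rw [← card_pos]
    by_contra hcon
    have : S.card = 0 := by omega
    rw [this] at hS
    omega
  obtain ⟨J, hJS, hJc, hJcl⟩ := hCLU S U e η hSne hD.dat.sgn hη0.le hGG
  have hcl : ∀ i ∈ J, ∀ j ∈ J,
      8 * (κ : ℝ) * ((U.filter (fun p => e i p ≠ e j p)).card : ℝ) ≤ U.card := by
    intro i hi j hj
    have h1 := hJcl i hi j hj
    have h2 : ((U.filter (fun p => e i p ≠ e j p)).card : ℝ) * (1 / x) ≤ Dl U e i j := by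
      unfold Dl
      rw [← nsmul_eq_mul, ← sum_const]
      apply sum_le_sum
      intro p hp
      obtain ⟨h1, h2, h3, h4⟩ := hUm p (mem_filter.1 hp).1
      have hp0 : (0 : ℝ) < p := by exact_mod_cast h1.pos
      apply one_div_le_one_div_of_le hp0
      exact_mod_cast h4
    have h3 : ((U.filter (fun p => e i p ≠ e j p)).card : ℝ) * (1 / x) ≤
        2 * η * ((U.card : ℝ) * (2 / x)) :=
      h2.trans (h1.trans (mul_le_mul_of_nonneg_left hVup (by positivity)))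
    have h4 : ((U.filter (fun p => e i p ≠ e j p)).card : ℝ) ≤ 4 * η * U.card := by
      have h5 := mul_le_mul_of_nonneg_right h3 hx0.le
      have e1 : ((U.filter (fun p => e i p ≠ e j p)).card : ℝ) * (1 / x) * x =
          ((U.filter (fun p => e i p ≠ e j p)).card : ℝ) := by field_simp
      have e2 : 2 * η * ((U.card : ℝ) * (2 / x)) * x = 4 * η * U.card := by field_simp; ring
      rw [e1, e2] at h5
      exact h5
    calc 8 * (κ : ℝ) * ((U.filter (fun p => e i p ≠ e j p)).card : ℝ) ≤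
        8 * (κ : ℝ) * (4 * η * U.card) := mul_le_mul_of_nonneg_left h4 (by positivity)
      _ = U.card := by rw [hη]; field_simp; norm_num
  have hlow := mom_low J U e κ hκ1 hD.dat.sgn hcl
  obtain ⟨b, hb, he, -⟩ := hD.sg
  have hJsub : J ⊆ SS (N + 1) q a := by
    intro n hn
    have h1 := hD.sub (hJS hn)
    obtain ⟨h2, h3⟩ := mem_filter.1 h1
    exact mem_filter.2 ⟨mem_range.2 ((mem_range.1 h2).trans (Nat.lt_succ_self N)), h3⟩
  have huns := Pool.Agent.Helper83.RU.UnsSg.uns κ (N + 1) q a b J hκ1 (by omega) hq hco hb hJsub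
  have hwt0 : ∀ p, 0 ≤ wt q p := by
    intro p
    unfold wt
    exact Real.log_natCast_nonneg _
  have hlog8 : 3 * 0.69 ≤ Real.log x := by
    have h1 : Real.log ((2 : ℝ) ^ 3) ≤ Real.log x := by
      apply Real.log_le_log (by norm_num)
      have : (8 : ℝ) ≤ x := by exact_mod_cast hx8
      linarith
    rw [Real.log_pow] at h1
    have h2 := Real.log_two_gt_d9
    push_cast at h1
    linarith
  have hwt1 : ∀ p ∈ U, L / 4 ≤ wt q p := by
    intro p hp
    obtain ⟨h1, h2, h3, h4⟩ := hUm p hp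
    have h5 : 1 ≤ q.factorization p := (h1.dvd_iff_one_le_factorization (by omega)).1 h2
    have h6 : p ≤ pw q p := by
      unfold pw
      calc p = p ^ 1 := (pow_one p).symm
        _ ≤ p ^ q.factorization p := Nat.pow_le_pow_right h1.pos h5
    have hp0 : (0 : ℝ) < p := by exact_mod_cast h1.pos
    unfold wt
    have h7 : Real.log p ≤ Real.log (pw q p) := by
      apply Real.log_le_log hp0
      exact_mod_cast h6
    have h8 : Real.log x ≤ Real.log 2 + Real.log p := by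
      rw [← Real.log_mul (by norm_num) hp0.ne']
      apply Real.log_le_log hx0
      exact_mod_cast h3.le
    have h9 := Real.log_two_lt_d9
    rw [hL]
    linarith
  have hmid : L / 4 * ∑ p ∈ U, (∑ n ∈ J, (e n p : ℝ)) ^ (2 * κ) ≤
      ∑ l ∈ OP q, wt q l * ((∑ n ∈ J, Pool.Agent.Helper18.RD.sg q a b n l : ℤ) : ℝ) ^ (2 * κ) := by
    calc L / 4 * ∑ p ∈ U, (∑ n ∈ J, (e n p : ℝ)) ^ (2 * κ) ≤
        ∑ l ∈ U, wt q l * ((∑ n ∈ J, Pool.Agent.Helper18.RD.sg q a b n l : ℤ) : ℝ) ^ (2 * κ) := by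
          rw [mul_sum]
          apply sum_le_sum
          intro p hp
          have e1 : ∑ n ∈ J, (e n p : ℝ) =
              ((∑ n ∈ J, Pool.Agent.Helper18.RD.sg q a b n p : ℤ) : ℝ) := by
            push_cast
            exact sum_congr rfl fun n _ => by rw [he]
          rw [e1]
          have h1 := hwt1 p hp
          have h2 : 0 ≤ ((∑ n ∈ J, Pool.Agent.Helper18.RD.sg q a b n p : ℤ) : ℝ) ^ (2 * κ) := by
            rw [pow_mul]; positivity
          exact mul_le_mul_of_nonneg_right h1 h2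
      _ ≤ _ := by
          apply sum_le_sum_of_subset_of_nonneg hUOP
          intro l _ _
          have h2 : 0 ≤ ((∑ n ∈ J, Pool.Agent.Helper18.RD.sg q a b n l : ℤ) : ℝ) ^ (2 * κ) := by
            rw [pow_mul]; positivity
          exact mul_nonneg (hwt0 l) h2
  have hJne : J.Nonempty := by
    rw [← card_pos]
    have := hSne.card_pos
    omega
  have hJ0 : (0 : ℝ) < J.card := by exact_mod_cast hJne.card_pos
  have hlN : 0 ≤ Real.log N := Real.log_nonneg hNr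
  have hlq0 : 0 ≤ Real.log q := Real.log_natCast_nonneg _
  have hCq : 37748736 * ((1 + Real.log N) * Real.log q) ≤ (U.card : ℝ) ^ 2 := by
    refine le_trans ?_ hlq
    have h0 : 0 ≤ (1 + Real.log N) * Real.log q := by positivity
    have e1 : (40000000 + (N0 : ℝ)) * (1 + Real.log N) * Real.log q =
        (40000000 + (N0 : ℝ)) * ((1 + Real.log N) * Real.log q) := by ring
    rw [e1]
    apply mul_le_mul_of_nonneg_right _ h0
    linarith
  obtain ⟨u, hu⟩ : ∃ u : ℝ, u = L / 4 * U.card := ⟨_, rfl⟩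
  have hup : 0 < u := by rw [hu]; positivity
  have hLq : Real.log q ≤ u ^ 2 := by
    have h2 : Real.log q ≤ (1 + Real.log N) * Real.log q := by nlinarith
    have h3 : (U.card : ℝ) ^ 2 / 16 ≤ u ^ 2 := by
      have h4 : 1 ≤ L ^ 2 := one_le_pow₀ hL1
      have e1 : u ^ 2 = L ^ 2 * ((U.card : ℝ) ^ 2 / 16) := by rw [hu]; ring
      rw [e1]
      have h5 : 0 ≤ (U.card : ℝ) ^ 2 / 16 := by positivity
      nlinarith
    have h4 : 0 ≤ (1 + Real.log N) * Real.log q := by positivity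
    linarith
  have hs : 64 * ((κ : ℝ) + 1) * √(Real.log q * Real.log (2 * ((N + 1 : ℕ) : ℝ))) ≤
      u / 4 := by
    have hlog : Real.log (2 * ((N + 1 : ℕ) : ℝ)) ≤ 4 * (1 + Real.log N) := by
      have h1 : Real.log (2 * ((N + 1 : ℕ) : ℝ)) ≤ Real.log (4 * (N : ℝ)) := by
        apply Real.log_le_log (by positivity)
        push_cast
        linarith
      have h3 : Real.log (4 * (N : ℝ)) = Real.log 4 + Real.log N :=
        Real.log_mul (by norm_num) (by positivity)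
      have h2 : Real.log 4 ≤ 4 - 1 := Real.log_le_sub_one_of_pos (by norm_num)
      linarith
    have h1 : 64 * ((κ : ℝ) + 1) ≤ 192 * L := by linarith
    have h2 : √(Real.log q * Real.log (2 * ((N + 1 : ℕ) : ℝ))) ≤
        √(4 * ((1 + Real.log N) * Real.log q)) := by
      apply Real.sqrt_le_sqrt
      have := mul_le_mul_of_nonneg_left hlog hlq0
      linarith
    have h3 : √(4 * ((1 + Real.log N) * Real.log q)) ≤ (U.card : ℝ) / 3072 := by
      apply Real.sqrt_le_iff.2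
      refine ⟨by positivity, ?_⟩
      rw [div_pow, le_div_iff₀ (by positivity)]
      linarith
    calc 64 * ((κ : ℝ) + 1) * √(Real.log q * Real.log (2 * ((N + 1 : ℕ) : ℝ))) ≤
        192 * L * ((U.card : ℝ) / 3072) :=
          mul_le_mul h1 (h2.trans h3) (Real.sqrt_nonneg _) (by positivity)
      _ = u / 4 := by rw [hu]; ring
  have hxu : u ≤ x * L := by
    have h1 : u = L * U.card / 4 := by rw [hu]; ring
    have h2 : L * (U.card : ℝ) ≤ L * x := mul_le_mul_of_nonneg_left hux (by linarith)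
    have h3 : 0 ≤ L * x := by positivity
    linarith
  have hP := fin0 u ((J.card : ℝ) ^ κ) ((2 * (κ : ℝ)) ^ κ) (Real.log q)
    (√(Real.log q * Real.log (2 * ((N + 1 : ℕ) : ℝ)))) (x * L) κ hup (by positivity) hs
    (by positivity) hLq hxu (by
      have h0 := mul_le_mul_of_nonneg_left hlow (show 0 ≤ L / 4 by linarith)
      have h1 := h0.trans (hmid.trans huns)
      have e1 : L / 4 * (3 / 4 * (U.card : ℝ) * (J.card : ℝ) ^ (2 * κ)) =
          3 / 4 * u * ((J.card : ℝ) ^ κ) ^ 2 := by rw [← pow_mul, mul_comm κ 2, hu]; ring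
      have e2 : (J.card : ℝ) ^ (2 * κ) = ((J.card : ℝ) ^ κ) ^ 2 := by rw [← pow_mul, mul_comm]
      rw [e1, e2] at h1
      exact h1)
  have hJle : (J.card : ℝ) ≤ 42 * κ := by
    have h1 : 12 * ((x : ℝ) * L) ≤ (Real.exp 3) ^ κ := by
      have h2 : (12 : ℝ) ≤ Real.exp 3 := by
        have h3 : Real.exp 3 = Real.exp 1 ^ 3 := by rw [← Real.exp_nat_mul]; norm_num
        rw [h3]
        have h4 := Real.exp_one_gt_d9
        have h5 : (2.7 : ℝ) ^ 3 ≤ Real.exp 1 ^ 3 := pow_le_pow_left₀ (by norm_num) (by linarith) 3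
        norm_num at h5 ⊢
        linarith
      have h3 : L ≤ Real.exp (Real.log x) := by
        have := Real.add_one_le_exp (Real.log x)
        linarith
      calc 12 * ((x : ℝ) * L) ≤ Real.exp 3 * (Real.exp (Real.log x) * Real.exp (Real.log x)) := by
            apply mul_le_mul h2 _ (by positivity) (Real.exp_pos _).le
            apply mul_le_mul _ h3 (by linarith) (Real.exp_pos _).le
            rw [Real.exp_log hx0]
        _ = Real.exp (3 + (Real.log x + Real.log x)) := by rw [← Real.exp_add, ← Real.exp_add]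
        _ ≤ Real.exp (κ * 3) := by
            apply Real.exp_le_exp.2
            linarith
        _ = (Real.exp 3) ^ κ := by rw [Real.exp_nat_mul]
    have h2 : (J.card : ℝ) ^ κ ≤ (2 * κ * Real.exp 3) ^ κ := by
      calc (J.card : ℝ) ^ κ ≤ 12 * (2 * (κ : ℝ)) ^ κ * (x * L) := hP
        _ = (2 * (κ : ℝ)) ^ κ * (12 * (x * L)) := by ring
        _ ≤ (2 * (κ : ℝ)) ^ κ * (Real.exp 3) ^ κ := by gcongr
        _ = _ := (mul_pow _ _ _).symm
    have h3 : (J.card : ℝ) ≤ 2 * κ * Real.exp 3 :=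
      le_of_pow_le_pow_left₀ (by omega) (by positivity) h2
    have h4 : Real.exp 3 ≤ 21 := by
      have h3 : Real.exp 3 = Real.exp 1 ^ 3 := by rw [← Real.exp_nat_mul]; norm_num
      rw [h3]
      have h4 := Real.exp_one_lt_d9
      have h5 : Real.exp 1 ^ 3 ≤ (2.72 : ℝ) ^ 3 :=
        pow_le_pow_left₀ (Real.exp_pos _).le (by linarith) 3
      norm_num at h5 ⊢
      linarith
    calc (J.card : ℝ) ≤ 2 * κ * Real.exp 3 := h3
      _ ≤ 2 * κ * 21 := by gcongr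
      _ = 42 * κ := by ring
  have hTs : T ≤ Real.sqrt N := by
    rw [hT, Real.sqrt_eq_rpow]
    exact Real.rpow_le_rpow_of_exponent_le hNr (by norm_num)
  have hSJ : (S.card : ℝ) ≤ 3 * J.card := by exact_mod_cast hJc
  have hfin : ((SS N q a).card : ℝ) ≤ 504 * Real.sqrt N := by linarith
  have : 504 * Real.sqrt N ≤ (40000000 + N0) * Real.sqrt N := by
    apply mul_le_mul_of_nonneg_right _ (Real.sqrt_nonneg _)
    linarith
  linarith

end Pool.Agent.Helper68.RD
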