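import Pool.Agent.Helper19.RD.All8
import Pool.Agent.Helper68.RD.SMOOTH

/-! Project RD: the form for smooth moduli, all rows together. -/

set_option autoImplicit false

namespace Pool.Agent.Helper68.RD

open Pool.Agent.Helper18.RD Pool.Agent.Helper19.RD

theorem all_SM : ST_SM := st_SM rd8_arr rd8_end2 rd8_dic st_CLU

end Pool.Agent.Helper68.RD
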