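import Pool.Agent.Helper68.RD.SMOOTH

/-! Project RD (MP_b7477f_nt): the form for smooth moduli does not see the `N`-smooth part nor a
part with few prime factors (helper68). -/

set_option autoImplicit false

namespace Pool.Agent.Helper68.RD

open Finset Pool.Agent.Helper18.RD Pool.Agent.Helper19.RD

/-- many squares: the logarithm of the modulus is bounded by that of `q1` -/
def ST_LQB : Prop := ∀ ε : ℝ, 0 < ε → ∃ C : ℝ, 0 < C ∧ ∀ N q0 q1 q2 a : ℕ, 1 ≤ N → 1 ≤ q0 →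
  1 ≤ q1 → 1 ≤ q2 → Nat.Coprime q0 q1 → Nat.Coprime (q0 * q1) q2 →
  Nat.Coprime (q0 * q1 * q2) a → (∀ p : ℕ, p.Prime → p ∣ q0 → p ≤ N) →
  C * ((N : ℝ) ^ (1 / 2 + ε : ℝ) + (q2.primeFactors.card : ℝ)) <
    (((range N).filter (fun n => IsSquare (q0 * q1 * q2 * n + a))).card : ℝ) →
  Real.log ((q0 * q1 * q2 : ℕ) : ℝ) ≤ C * (N + Real.log q1)

/-- many prime factors of one size, any `N`-smooth part -/
def ST_SM8 : Prop := ∀ ε : ℝ, 0 < ε → ∃ C : ℝ, 0 < C ∧ ∀ N q0 q1 q2 a x : ℕ, 1 ≤ N → 1 ≤ q0 →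
  1 ≤ q1 → 1 ≤ q2 → Nat.Coprime q0 q1 → Nat.Coprime (q0 * q1) q2 →
  Nat.Coprime (q0 * q1 * q2) a → (∀ p : ℕ, p.Prime → p ∣ q0 → p ≤ N) →
  N ≤ x ^ 2 →
  (x : ℝ) * (1 + Real.log x) ≤ (N : ℝ) ^ (1 / 4800 : ℝ) * (PX (q0 * q1 * q2) x).card →
  C * (1 + Real.log N) * (N + Real.log q1) ≤ ((PX (q0 * q1 * q2) x).card : ℝ) ^ 2 →
  (((range N).filter (fun n => IsSquare (q0 * q1 * q2 * n + a))).card : ℝ) ≤
    C * ((N : ℝ) ^ (1 / 2 + ε : ℝ) + (q2.primeFactors.card : ℝ))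

theorem st_SM8 (hLQ : ST_LQB) (hSM : ST_SM) : ST_SM8 := by
  intro ε hε
  obtain ⟨C1, hC1, hLQ⟩ := hLQ ε hε
  obtain ⟨C0, hC0, hSM⟩ := hSM
  refine ⟨C1 + C0 + C0 * C1, by positivity, ?_⟩
  intro N q0 q1 q2 a x hN hq0 hq1 hq2 hco hco2 hca hsm hNx hx hu
  by_contra hcon
  rw [not_le] at hcon
  have hNr : (1 : ℝ) ≤ N := by exact_mod_cast hN
  have hp : 0 < (N : ℝ) ^ (1 / 2 + ε : ℝ) := Real.rpow_pos_of_pos (by linarith) _
  have hw : (0 : ℝ) ≤ (q2.primeFactors.card : ℝ) := Nat.cast_nonneg _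
  have hlN : 0 ≤ Real.log N := Real.log_nonneg hNr
  have hl1 : 0 ≤ Real.log q1 := Real.log_natCast_nonneg _
  have hC01 : 0 < C0 * C1 := by positivity
  have h1 := hLQ N q0 q1 q2 a hN hq0 hq1 hq2 hco hco2 hca hsm (by
    refine lt_of_le_of_lt ?_ hcon
    apply mul_le_mul_of_nonneg_right _ (by positivity)
    linarith)
  have h2 := hSM N (q0 * q1 * q2) a x hN (Nat.mul_pos (Nat.mul_pos hq0 hq1) hq2) hca hNx hx (by
    refine le_trans ?_ hu
    have h3 : 0 ≤ C0 * (1 + Real.log N) := by positivity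
    calc C0 * (1 + Real.log N) * Real.log ((q0 * q1 * q2 : ℕ) : ℝ) ≤
        C0 * (1 + Real.log N) * (C1 * (N + Real.log q1)) := mul_le_mul_of_nonneg_left h1 h3
      _ = C0 * C1 * ((1 + Real.log N) * (N + Real.log q1)) := by ring
      _ ≤ (C1 + C0 + C0 * C1) * ((1 + Real.log N) * (N + Real.log q1)) := by
          apply mul_le_mul_of_nonneg_right _ (by positivity)
          linarith
      _ = _ := by ring)
  have h4 : Real.sqrt N ≤ (N : ℝ) ^ (1 / 2 + ε : ℝ) := by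
    rw [Real.sqrt_eq_rpow]
    exact Real.rpow_le_rpow_of_exponent_le hNr (by linarith)
  have h5 : C0 * Real.sqrt N ≤
      (C1 + C0 + C0 * C1) * ((N : ℝ) ^ (1 / 2 + ε : ℝ) + (q2.primeFactors.card : ℝ)) := by
    apply mul_le_mul _ (by linarith) (Real.sqrt_nonneg _) (by positivity)
    linarith
  linarith

end Pool.Agent.Helper68.RD
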